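import Pool.Agent.H987.Z.StA

/-! # A2: the tower of normal subgroups of a free group -/

set_option autoImplicit false

namespace Pool.Agent.H199.Z987

open Pool.Agent.H987.Z

/-! ### Words -/

section words

variable {G C Q : Type} [Group G] [Group C] [Group Q] {M : ℕ}

theorem red_map (f : G → C) (A : Set G) (hf : ∀ u ∈ A, f u = 1 → u = 1) :
    ∀ l : List (G × Fin M), (∀ p ∈ l, p.1 ∈ A) → RedC l →
      RedC (l.map (fun p => (f p.1, p.2)))
  | [], _, _ => trivial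
  | [_], _, _ => trivial
  | (u, j) :: (u', j') :: l, hA, h => by
    refine ⟨fun h1 => h.1 (hf u (hA (u, j) (by simp)) h1), ?_⟩
    exact red_map f A hf ((u', j') :: l) (fun p hp => hA p (List.mem_cons_of_mem _ hp)) h.2

omit [Group G] [Group C] in
theorem map_inj (f : G → C) (A : Set G) (hf : ∀ u ∈ A, ∀ v ∈ A, f u = f v → u = v) :
    ∀ l l' : List (G × Fin M), (∀ p ∈ l, p.1 ∈ A) → (∀ p ∈ l', p.1 ∈ A) →
      l.map (fun p => (f p.1, p.2)) = l'.map (fun p => (f p.1, p.2)) → l = l'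
  | [], [], _, _, _ => rfl
  | [], _ :: _, _, _, h => by simp at h
  | _ :: _, [], _, _, h => by simp at h
  | p :: l, p' :: l', h1, h2, h => by
    rw [List.map_cons, List.map_cons, List.cons.injEq, Prod.mk.injEq] at h
    have e := map_inj f A hf l l' (fun q hq => h1 q (List.mem_cons_of_mem _ hq))
      (fun q hq => h2 q (List.mem_cons_of_mem _ hq)) h.2
    have e1 := hf p.1 (h1 p (by simp)) p'.1 (h2 p' (by simp)) h.1.1
    rw [e, Prod.ext e1 h.1.2]

theorem eval_map (c : G →* C) (φ : G →* Q) (ρ : C →* Q) (s : Fin M → G) (σ : Fin M → Q)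
    (A : Set G) (h1 : ∀ u ∈ A, φ u = ρ (c u)) (h2 : ∀ j, φ (s j) = σ j) :
    ∀ l : List (G × Fin M), (∀ p ∈ l, p.1 ∈ A) →
      φ (pC s l) = evC ρ σ (l.map (fun p => (c p.1, p.2)))
  | [], _ => by simp [pC, evC]
  | (u, j) :: l, hA => by
    rw [List.map_cons]
    simp only [pC, evC, map_mul]
    rw [eval_map c φ ρ s σ A h1 h2 l (fun q hq => hA q (List.mem_cons_of_mem _ hq)), h2,
      h1 u (hA (u, j) (by simp))]

theorem Bl_finite {E : Set G} (hE : E.Finite) : ∀ k, (Bl E k).Finite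
  | 0 => Set.finite_singleton _
  | (k + 1) => by
    refine (Bl_finite hE k).union ?_
    refine Set.Finite.subset (((Bl_finite hE k).prod hE).image (fun p => p.1 * p.2)) ?_
    rintro g ⟨x, hx, s, hs, rfl⟩
    exact ⟨(x, s), ⟨hx, hs⟩, rfl⟩

theorem one_mem_Bl (E : Set G) : ∀ k, (1 : G) ∈ Bl E k
  | 0 => rfl
  | (k + 1) => Or.inl (one_mem_Bl E k)

theorem Bl_sub {E : Set G} (H : Subgroup G) (hE : ∀ g ∈ E, g ∈ H) : ∀ k, ∀ g ∈ Bl E k, g ∈ H
  | 0, g, hg => by
    have : g = 1 := hg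
    rw [this]
    exact H.one_mem
  | (k + 1), g, hg => by
    rcases hg with hg | ⟨x, hx, s, hs, rfl⟩
    · exact Bl_sub H hE k g hg
    · exact H.mul_mem (Bl_sub H hE k x hx) (hE s hs)

theorem Bl_map (π : G →* C) {E : Set G} {E' : Set C} (hE : ∀ g ∈ E', ∃ u ∈ E, π u = g) :
    ∀ k, ∀ g ∈ Bl E' k, ∃ u ∈ Bl E k, π u = g
  | 0, g, hg => ⟨1, rfl, by
    have : g = 1 := hg
    rw [this, map_one]⟩
  | (k + 1), g, hg => by
    rcases hg with hg | ⟨x, hx, s, hs, rfl⟩
    · obtain ⟨u, hu, rfl⟩ := Bl_map π hE k g hg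
      exact ⟨u, Or.inl hu, rfl⟩
    · obtain ⟨u, hu, rfl⟩ := Bl_map π hE k x hx
      obtain ⟨v, hv, rfl⟩ := hE s hs
      exact ⟨u * v, Or.inr ⟨u, hu, v, hv, rfl⟩, map_mul _ _ _⟩

end words

/-! ### The free group -/

section free

/-- the generators -/
abbrev Gen (d : ℕ) : Type := Fin d ⊕ (ℕ × ℕ)

/-- the free group -/
abbrev FF (d : ℕ) : Type := FreeGroup (Gen d)

variable {d : ℕ}

/-- the first generators -/
def ge (i : Fin d) : FF d := FreeGroup.of (Sum.inl i)

/-- the other generators -/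
def gy (i j : ℕ) : FF d := FreeGroup.of (Sum.inr (i, j))

/-- the homomorphism to the lattice -/
def χ0 : FF d →* Multiplicative (Fin d → ℤ) :=
  FreeGroup.lift (fun g => match g with
    | Sum.inl i => Multiplicative.ofAdd (Pi.single i 1)
    | Sum.inr _ => 1)

theorem χ0_e (i : Fin d) : χ0 (ge i) = Multiplicative.ofAdd (Pi.single i (1 : ℤ)) :=
  FreeGroup.lift_apply_of ..

theorem χ0_y (i j : ℕ) : χ0 (d := d) (gy i j) = 1 := FreeGroup.lift_apply_of ..

/-- the subgroup of the stages below `n` -/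
def Fs (d n : ℕ) : Subgroup (FF d) :=
  Subgroup.closure ({g | ∃ i, g = ge i} ∪ {g | ∃ i < n, ∃ j, g = gy i j})

theorem ge_mem (n : ℕ) (i : Fin d) : ge i ∈ Fs d n :=
  Subgroup.subset_closure (Or.inl ⟨i, rfl⟩)

theorem gy_mem {n i : ℕ} (h : i < n) (j : ℕ) : gy i j ∈ Fs d n :=
  Subgroup.subset_closure (Or.inr ⟨i, h, j, rfl⟩)

theorem Fs_mono {n k : ℕ} (h : n ≤ k) : Fs d n ≤ Fs d k := by
  apply Subgroup.closure_mono
  apply Set.union_subset_union_right
  rintro g ⟨i, hi, j, rfl⟩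
  exact ⟨i, lt_of_lt_of_le hi h, j, rfl⟩

theorem exists_Fs (x : FF d) : ∃ n, x ∈ Fs d n := by
  induction x using FreeGroup.induction_on with
  | C1 => exact ⟨0, Subgroup.one_mem _⟩
  | of g =>
    rcases g with i | ⟨i, j⟩
    · exact ⟨0, ge_mem 0 i⟩
    · exact ⟨i + 1, gy_mem (Nat.lt_succ_self i) j⟩
  | inv_of g h =>
    obtain ⟨n, hn⟩ := h
    exact ⟨n, Subgroup.inv_mem _ hn⟩
  | mul x y hx hy =>
    obtain ⟨n, hn⟩ := hx
    obtain ⟨k, hk⟩ := hy
    exact ⟨max n k, Subgroup.mul_mem _ (Fs_mono (le_max_left _ _) hn)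
      (Fs_mono (le_max_right _ _) hk)⟩

/-- the finite set of the generators of the ball -/
def Es (d : ℕ) (M : ℕ → ℕ) (n : ℕ) : Set (FF d) :=
  {g | ∃ i, g = ge i ∨ g = (ge i)⁻¹} ∪ {g | ∃ i < n, ∃ j < M i, g = gy i j}

theorem Es_finite (M : ℕ → ℕ) (n : ℕ) : (Es d M n).Finite := by
  refine Set.Finite.union ?_ ?_
  · refine Set.Finite.subset ((Set.finite_range (fun i : Fin d => ge i)).union
      (Set.finite_range (fun i : Fin d => (ge i)⁻¹))) ?_
    rintro g ⟨i, rfl | rfl⟩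
    · exact Or.inl ⟨i, rfl⟩
    · exact Or.inr ⟨i, rfl⟩
  · refine Set.Finite.subset (Set.finite_range
      (fun p : (Σ i : Fin n, Fin (M i)) => (gy (p.1 : ℕ) (p.2 : ℕ) : FF d))) ?_
    rintro g ⟨i, hi, j, hj, rfl⟩
    exact ⟨⟨⟨i, hi⟩, ⟨j, hj⟩⟩, rfl⟩

theorem Es_sub (M : ℕ → ℕ) (n : ℕ) : ∀ g ∈ Es d M n, g ∈ Fs d n := by
  rintro g (⟨i, rfl | rfl⟩ | ⟨i, hi, j, _, rfl⟩)
  · exact ge_mem n i
  · exact Subgroup.inv_mem _ (ge_mem n i)
  · exact gy_mem hi j

/-! ### The stages -/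

/-- the state of the recursion -/
structure St (d n : ℕ) (N : Subgroup (FF d)) : Prop where
  nor : N.Normal
  s1 : ∀ i, n ≤ i → ∀ j, gy i j ∈ N
  s2 : ∀ x, x ∉ N → ∃ L : Subgroup (FF d), L.Normal ∧ L.FiniteIndex ∧ N ≤ L ∧ x ∉ L
  le : N ≤ (χ0 (d := d)).ker
  s3 : N.relIndex (χ0 (d := d)).ker ≠ 0

/-- separation of a finite set -/
theorem St.sep {n : ℕ} {N : Subgroup (FF d)} (h : St d n N) {S : Set (FF d)} (hS : S.Finite)
    (hN : ∀ x ∈ S, x ∉ N) :
    ∃ L : Subgroup (FF d), L.Normal ∧ L.FiniteIndex ∧ N ≤ L ∧ ∀ x ∈ S, x ∉ L := by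
  induction S, hS using Set.Finite.induction_on with
  | empty => exact ⟨⊤, inferInstance, inferInstance, le_top, fun x hx => hx.elim⟩
  | @insert a S ha hS ih =>
    obtain ⟨L, h1, h2, h3, h4⟩ := ih (fun x hx => hN x (Set.mem_insert_of_mem _ hx))
    obtain ⟨L', h1', h2', h3', h4'⟩ := h.s2 a (hN a (Set.mem_insert _ _))
    refine ⟨L ⊓ L', inferInstance, inferInstance, le_inf h3 h3', ?_⟩
    intro x hx
    rcases Set.mem_insert_iff.1 hx with rfl | hx
    · exact fun hh => h4' hh.2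
    · exact fun hh => h4 x hx hh.1

theorem St_zero : St d 0 (χ0 (d := d)).ker where
  nor := inferInstance
  s1 := fun i _ j => χ0_y i j
  s2 := by
    intro x hx
    have h1 : χ0 x ≠ 1 := hx
    obtain ⟨i, hi⟩ : ∃ i, (Multiplicative.toAdd (χ0 x)) i ≠ 0 := by
      by_contra hcon
      push Not at hcon
      apply h1
      apply Multiplicative.toAdd.injective
      funext i
      exact hcon i
    set a := (Multiplicative.toAdd (χ0 x)) i with ha
    have hm : NeZero (a.natAbs + 1) := ⟨by omega⟩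
    let ψ : (Fin d → ℤ) →+ ZMod (a.natAbs + 1) :=
      (Int.castAddHom (ZMod (a.natAbs + 1))).comp (Pi.evalAddMonoidHom (fun _ => ℤ) i)
    let φ : FF d →* Multiplicative (ZMod (a.natAbs + 1)) :=
      (AddMonoidHom.toMultiplicative ψ).comp χ0
    refine ⟨φ.ker, inferInstance, inferInstance, ?_, ?_⟩
    · intro y hy
      have hy' : χ0 y = 1 := hy
      rw [MonoidHom.mem_ker, MonoidHom.comp_apply, hy', map_one]
    · intro hy
      have h2 : ((a : ℤ) : ZMod (a.natAbs + 1)) = 0 := by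
        have h3 : φ x = 1 := hy
        exact congrArg Multiplicative.toAdd h3
      rw [ZMod.intCast_zmod_eq_zero_iff_dvd] at h2
      have h4 := Int.natAbs_dvd_natAbs.2 h2
      rw [Int.natAbs_natCast] at h4
      have h5 := Nat.le_of_dvd (Int.natAbs_pos.2 hi) h4
      omega
  le := le_rfl
  s3 := by
    rw [Subgroup.relIndex_self]
    exact one_ne_zero

/-- the relation between two consecutive stages -/
structure Rel (d : ℕ) (M r : ℕ → ℕ) (n : ℕ) (N N' : Subgroup (FF d)) : Prop where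
  le : N' ≤ N
  p1 : Fs d n ⊓ N ≤ N'
  p2 : ∀ j, gy n j * gy n j ∈ N'
  p3 : ∃ (C : Type) (_ : Group C) (Q : Type) (_ : Group Q) (c : FF d →* C) (ρ : C →* Q)
    (σ : Fin (M n) → Q) (φ : FF d →* Q), N ≤ c.ker ∧ N' ≤ φ.ker ∧
      (∀ u ∈ Fs d n, φ u = ρ (c u)) ∧ (∀ j : Fin (M n), φ (gy n j) = σ j) ∧
      (∀ u ∈ Bl (Es d M n) (r n), ∀ v ∈ Bl (Es d M n) (r n), c u = c v → u⁻¹ * v ∈ N) ∧
      ∀ (l l' : List (C × Fin (M n))) (x x' : C), RedC l → RedC l' → l.length ≤ r n →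
        l'.length ≤ r n → evC ρ σ l * ρ x = evC ρ σ l' * ρ x' → l = l' ∧ x = x'

theorem step (hw : S_word) (M r : ℕ → ℕ) (n : ℕ) (N : Subgroup (FF d)) (h : St d n N) :
    ∃ N', St d (n + 1) N' ∧ Rel d M r n N N' := by
  classical
  have hB := Bl_finite (Es_finite (d := d) M n) (r n)
  obtain ⟨L, hL, hLf, hNL, hLS⟩ := h.sep (S := {x | ∃ u ∈ Bl (Es d M n) (r n),
    ∃ v ∈ Bl (Es d M n) (r n), x = u⁻¹ * v ∧ x ∉ N})
    (Set.Finite.subset ((hB.prod hB).image (fun p => p.1⁻¹ * p.2)) (by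
      rintro x ⟨u, hu, v, hv, rfl, -⟩
      exact ⟨(u, v), ⟨hu, hv⟩, rfl⟩)) (by
      rintro x ⟨u, hu, v, hv, rfl, hx⟩
      exact hx)
  obtain ⟨Q, _, hQ, ρ, σ, hσ, hfree⟩ := hw (FF d ⧸ L) (M n) (r n)
  let c : FF d →* FF d ⧸ L := QuotientGroup.mk' L
  let φ : FF d →* Q := FreeGroup.lift (fun g => match g with
    | Sum.inl i => ρ (c (ge i))
    | Sum.inr (i, j) => if i < n then ρ (c (gy i j)) else
        if h : i = n ∧ j < M n then σ ⟨j, h.2⟩ else 1)
  have φe : ∀ i, φ (ge i) = ρ (c (ge i)) := fun i => FreeGroup.lift_apply_of ..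
  have φy : ∀ i j, φ (gy i j) = if i < n then ρ (c (gy i j)) else
        if h : i = n ∧ j < M n then σ ⟨j, h.2⟩ else 1 := fun i j => FreeGroup.lift_apply_of ..
  have φF : ∀ u ∈ Fs d n, φ u = ρ (c u) := by
    intro u hu
    have := MonoidHom.eqOn_closure (f := φ) (g := ρ.comp c)
      (s := {g | ∃ i, g = ge i} ∪ {g | ∃ i < n, ∃ j, g = gy i j}) (by
        rintro g (⟨i, rfl⟩ | ⟨i, hi, j, rfl⟩)
        · exact φe i
        · rw [φy, if_pos hi]
          rfl)
    exact this hu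
  have φn : ∀ j : Fin (M n), φ (gy n j) = σ j := by
    intro j
    rw [φy, if_neg (lt_irrefl n), dif_pos ⟨rfl, j.2⟩]
  have hker : φ.ker.FiniteIndex := inferInstance
  refine ⟨N ⊓ φ.ker, ?_, ?_⟩
  · have := h.nor
    constructor
    · infer_instance
    · intro i hi j
      refine ⟨h.s1 i (by omega) j, ?_⟩
      change φ (gy i j) = 1
      rw [φy, if_neg (by omega), dif_neg (by omega)]
    · intro x hx
      by_cases hxN : x ∈ N
      · refine ⟨φ.ker, inferInstance, hker, inf_le_right, fun hh => hx ⟨hxN, hh⟩⟩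
      · obtain ⟨L', h1, h2, h3, h4⟩ := h.s2 x hxN
        exact ⟨L', h1, h2, inf_le_left.trans h3, h4⟩
    · exact inf_le_left.trans h.le
    · apply Subgroup.relIndex_inf_ne_zero h.s3
      intro h0
      exact hker.index_ne_zero (Subgroup.index_eq_zero_of_relIndex_eq_zero h0)
  · constructor
    · exact inf_le_left
    · rintro u ⟨hu1, hu2⟩
      refine ⟨hu2, ?_⟩
      change φ u = 1
      have : c u = 1 := (QuotientGroup.eq_one_iff u).2 (hNL hu2)
      rw [φF u hu1, this, map_one]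
    · intro j
      refine ⟨N.mul_mem (h.s1 n le_rfl j) (h.s1 n le_rfl j), ?_⟩
      change φ (gy n j * gy n j) = 1
      rw [map_mul, φy, if_neg (lt_irrefl n)]
      split_ifs
      · exact hσ _
      · exact one_mul 1
    · refine ⟨FF d ⧸ L, inferInstance, Q, inferInstance, c, ρ, σ, φ, ?_, inf_le_right, φF, φn,
        ?_, hfree⟩
      · intro u hu
        exact (QuotientGroup.eq_one_iff u).2 (hNL hu)
      · intro u hu v hv huv
        by_contra hcon
        exact hLS _ ⟨u, hu, v, hv, rfl, hcon⟩ (QuotientGroup.eq.1 huv)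

theorem tower (hw : S_word) (d : ℕ) (M r : ℕ → ℕ) :
    ∃ N : ℕ → Subgroup (FF d), N 0 = (χ0 (d := d)).ker ∧ (∀ n, St d n (N n)) ∧
      ∀ n, Rel d M r n (N n) (N (n + 1)) := by
  classical
  let N : ℕ → Subgroup (FF d) := fun n => Nat.rec (χ0 (d := d)).ker
    (fun n N => if h : St d n N then (step hw M r n N h).choose else ⊥) n
  have h0 : N 0 = (χ0 (d := d)).ker := rfl
  have hs : ∀ n, (h : St d n (N n)) → N (n + 1) = (step hw M r n (N n) h).choose := by
    intro n h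
    exact dif_pos h
  have h1 : ∀ n, St d n (N n) := by
    intro n
    induction n with
    | zero => exact St_zero
    | succ n ih =>
      rw [hs n ih]
      exact (step hw M r n (N n) ih).choose_spec.1
  refine ⟨N, h0, h1, fun n => ?_⟩
  rw [hs n (h1 n)]
  exact (step hw M r n (N n) (h1 n)).choose_spec.2

/-! ### The group -/

theorem gen_mem {R : Subgroup (Multiplicative (Fin d → ℤ))}
    (h : ∀ i : Fin d, Multiplicative.ofAdd (Pi.single i (1 : ℤ)) ∈ R)
    (x : Multiplicative (Fin d → ℤ)) : x ∈ R := by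
  have h1 : x = ∏ i, (Multiplicative.ofAdd (Pi.single i (1 : ℤ))) ^ (Multiplicative.toAdd x i) := by
    apply Multiplicative.toAdd.injective
    rw [toAdd_prod]
    funext j
    rw [Finset.sum_apply, Finset.sum_eq_single j]
    · simp
    · intro i _ hij
      simp [hij.symm]
    · intro hj
      exact absurd (Finset.mem_univ j) hj
  rw [h1]
  exact Subgroup.prod_mem _ fun i _ => Subgroup.zpow_mem _ (h i) _

end free

/-- **A2.** -/
theorem alg (h : S_word) : S_alg := by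
  classical
  intro d M r
  obtain ⟨N, hN0, hSt, hRel⟩ := tower h d M r
  have hdec : ∀ n k, n ≤ k → N k ≤ N n := by
    intro n k hk
    induction k, hk using Nat.le_induction with
    | base => exact le_rfl
    | succ k _ ih => exact (hRel k).le.trans ih
  have hfix : ∀ n k, n ≤ k → Fs d n ⊓ N n ≤ N k := by
    intro n k hk
    induction k, hk using Nat.le_induction with
    | base => exact inf_le_right
    | succ k hk ih =>
      exact fun u hu => (hRel k).p1 ⟨Fs_mono hk hu.1, ih hu⟩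
  have hInor : (⨅ n, N n).Normal := Subgroup.normal_iInf_normal (fun n => (hSt n).nor)
  have hI : ∀ n, Fs d n ⊓ N n ≤ ⨅ n, N n := by
    intro n
    apply le_iInf
    intro k
    rcases le_total n k with hk | hk
    · exact hfix n k hk
    · exact inf_le_right.trans (hdec k n hk)
  have hIN : ∀ n, (⨅ n, N n) ≤ N n := fun n => iInf_le _ _
  have hI0 : (⨅ n, N n) ≤ (χ0 (d := d)).ker := hN0 ▸ hIN 0
  generalize hII : (⨅ n, N n) = I at hInor hI hIN hI0
  let π : FF d →* FF d ⧸ I := QuotientGroup.mk' I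
  have hπ : ∀ u v : FF d, π u = π v ↔ u⁻¹ * v ∈ I := fun u v => QuotientGroup.eq
  have hπs : Function.Surjective π := QuotientGroup.mk'_surjective I
  let χ : FF d ⧸ I →* Multiplicative (Fin d → ℤ) := QuotientGroup.lift I χ0 (fun x hx => hI0 hx)
  have hχ : ∀ u, χ (π u) = χ0 u := fun u => rfl
  have inj0 : ∀ u ∈ Fs d 0, ∀ v ∈ Fs d 0, χ0 u = χ0 v → π u = π v := by
    intro u hu v hv huv
    rw [hπ]
    apply hI 0
    refine ⟨Subgroup.mul_mem _ (Subgroup.inv_mem _ hu) hv, ?_⟩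
    rw [hN0]
    change χ0 (u⁻¹ * v) = 1
    rw [map_mul, map_inv, huv, inv_mul_cancel]
  have surj0 : ∀ x : Multiplicative (Fin d → ℤ), ∃ u ∈ Fs d 0, χ0 u = x := by
    intro x
    have := gen_mem (R := (Fs d 0).map χ0) (fun i => ⟨ge i, ge_mem 0 i, χ0_e i⟩) x
    exact this
  choose g hg1 hg2 using surj0
  let ι : Multiplicative (Fin d → ℤ) →* FF d ⧸ I :=
    { toFun := fun x => π (g x)
      map_one' := by
        rw [← map_one π]
        exact inj0 _ (hg1 1) _ (Subgroup.one_mem _) (by rw [hg2, map_one])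
      map_mul' := fun x y => by
        rw [← map_mul π]
        exact inj0 _ (hg1 _) _ (Subgroup.mul_mem _ (hg1 x) (hg1 y)) (by
          rw [hg2, map_mul, hg2, hg2]) }
  have hι : ∀ x, ι x = π (g x) := fun x => rfl
  have hιe : ∀ i : Fin d, ι (Multiplicative.ofAdd (Pi.single i 1)) = π (ge i) := fun i =>
    inj0 _ (hg1 _) _ (ge_mem 0 i) (by rw [hg2, χ0_e])
  have hιe' : ∀ i : Fin d, ι (Multiplicative.ofAdd (Pi.single i (-1))) = π (ge i)⁻¹ := fun i =>
    inj0 _ (hg1 _) _ (Subgroup.inv_mem _ (ge_mem 0 i)) (by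
      rw [hg2, map_inv, χ0_e, ← ofAdd_neg, ← Pi.single_neg])
  have hcF : Countable (FF d) :=
    Function.Injective.countable (f := FreeGroup.toWord (α := Gen d)) FreeGroup.toWord_injective
  have hcG : Countable (FF d ⧸ I) := hπs.countable
  refine ⟨FF d ⧸ I, inferInstance, hcG, ι, χ, fun i j => π (gy i j), ?_, ?_, ?_, ?_, ?_⟩
  · intro x
    rw [hι, hχ, hg2]
  · intro i j
    rw [hχ, χ0_y]
  · intro i j
    change π (gy i j) * π (gy i j) = 1
    rw [← map_mul, ← map_one π, eq_comm, hπ, inv_one, one_mul]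
    exact hI (i + 1) ⟨Subgroup.mul_mem _ (gy_mem (Nat.lt_succ_self i) j)
      (gy_mem (Nat.lt_succ_self i) j), (hRel i).p2 j⟩
  · intro S
    -- the finite set is in the image of a stage
    have h1 : ∃ n, ∀ x ∈ S, ∃ u ∈ Fs d n, π u = x := by
      induction S using Finset.induction_on with
      | empty => exact ⟨0, fun x hx => absurd hx (Finset.notMem_empty x)⟩
      | insert a S _ ih =>
        obtain ⟨n, hn⟩ := ih
        obtain ⟨u, rfl⟩ := hπs a
        obtain ⟨k, hk⟩ := exists_Fs u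
        refine ⟨max n k, fun x hx => ?_⟩
        rcases Finset.mem_insert.1 hx with rfl | hx
        · exact ⟨u, Fs_mono (le_max_right _ _) hk, rfl⟩
        · obtain ⟨v, hv, rfl⟩ := hn x hx
          exact ⟨v, Fs_mono (le_max_left _ _) hv, rfl⟩
    obtain ⟨n, hn⟩ := h1
    have h2 : Subgroup.closure (S : Set (FF d ⧸ I)) ≤ (Fs d n).map π := by
      rw [Subgroup.closure_le]
      intro x hx
      obtain ⟨u, hu, rfl⟩ := hn x hx
      exact ⟨u, hu, rfl⟩
    have h3 : π.ker = I := QuotientGroup.ker_mk' I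
    have h4 : I.relIndex (Fs d n ⊓ χ0.ker) ≠ 0 := by
      have e : I ⊓ (Fs d n ⊓ χ0.ker) = N n ⊓ (Fs d n ⊓ χ0.ker) := by
        apply le_antisymm
        · exact inf_le_inf_right _ (hIN n)
        · rintro u ⟨hu1, hu2, hu3⟩
          exact ⟨hI n ⟨hu2, hu1⟩, hu2, hu3⟩
      rw [← Subgroup.inf_relIndex_right, e, Subgroup.inf_relIndex_right]
      intro h0
      exact (hSt n).s3 (Subgroup.relIndex_eq_zero_of_le_right inf_le_right h0)
    rw [← h3, Subgroup.relIndex_ker] at h4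
    have h5 : Finite ((Fs d n ⊓ χ0.ker).map π) := Nat.finite_of_card_ne_zero h4
    refine Set.Finite.subset (Set.toFinite (((Fs d n ⊓ χ0.ker).map π : Subgroup _) : Set _)) ?_
    rintro x ⟨hx1, hx2⟩
    obtain ⟨u, hu, rfl⟩ := h2 hx1
    exact ⟨u, ⟨hu, hx2⟩, rfl⟩
  · intro n
    obtain ⟨C, _, Q, _, c, ρ, σ, φ, hc, hφ, hF, hy, hB, hfree⟩ := (hRel n).p3
    let c' : FF d ⧸ I →* C := QuotientGroup.lift I c (fun x hx => hc (hIN n hx))
    let φ' : FF d ⧸ I →* Q := QuotientGroup.lift I φ (fun x hx => hφ (hIN (n + 1) hx))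
    have hc' : ∀ u, c' (π u) = c u := fun u => rfl
    have hφ' : ∀ u, φ' (π u) = φ u := fun u => rfl
    have hE : ∀ g ∈ En ι (fun i j => π (gy i j)) M n, ∃ u ∈ Es d M n, π u = g := by
      rintro g (⟨i, rfl | rfl⟩ | ⟨i, hi, j, hj, rfl⟩)
      · exact ⟨ge i, Or.inl ⟨i, Or.inl rfl⟩, (hιe i).symm⟩
      · exact ⟨(ge i)⁻¹, Or.inl ⟨i, Or.inr rfl⟩, (hιe' i).symm⟩
      · exact ⟨gy i j, Or.inr ⟨i, hi, j, hj, rfl⟩, rfl⟩
    have hlift := Bl_map π hE (r n)
    have hA : ∀ u ∈ Bl (En ι (fun i j => π (gy i j)) M n) (r n),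
        ∀ v ∈ Bl (En ι (fun i j => π (gy i j)) M n) (r n), c' u = c' v → u = v := by
      intro x hx y hy hxy
      obtain ⟨u, hu, rfl⟩ := hlift x hx
      obtain ⟨v, hv, rfl⟩ := hlift y hy
      rw [hπ]
      refine hI n ⟨?_, hB u hu v hv hxy⟩
      exact Subgroup.mul_mem _ (Subgroup.inv_mem _ (Bl_sub _ (Es_sub M n) _ u hu))
        (Bl_sub _ (Es_sub M n) _ v hv)
    have hA1 : ∀ u ∈ Bl (En ι (fun i j => π (gy i j)) M n) (r n), c' u = 1 → u = 1 := by
      intro u hu h1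
      exact hA u hu 1 (one_mem_Bl _ _) (by rw [h1, map_one])
    have hev : ∀ u ∈ Bl (En ι (fun i j => π (gy i j)) M n) (r n), φ' u = ρ (c' u) := by
      intro x hx
      obtain ⟨u, hu, rfl⟩ := hlift x hx
      exact hF u (Bl_sub _ (Es_sub M n) _ u hu)
    intro l l' x x' hl hl' hlen hlen' hlA hlA' hx hx' heq
    have e1 := eval_map c' φ' ρ (fun j : Fin (M n) => π (gy n j)) σ _ hev hy l hlA
    have e2 := eval_map c' φ' ρ (fun j : Fin (M n) => π (gy n j)) σ _ hev hy l' hlA'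
    have e3 := congrArg φ' heq
    rw [map_mul, map_mul, e1, e2, hev x hx, hev x' hx'] at e3
    obtain ⟨e4, e5⟩ := hfree _ _ _ _ (red_map c' _ hA1 l hlA hl) (red_map c' _ hA1 l' hlA' hl')
      (by rw [List.length_map]; exact hlen) (by rw [List.length_map]; exact hlen') e3
    exact ⟨map_inj c' _ hA l l' hlA hlA' e4, hA x hx x' hx' e5⟩

end Pool.Agent.H199.Z987
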